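import Mathlib

/-!
# Hyperplanes in general position and symmetric powers of the projective line

`n + 3` hyperplanes in general position in `P^n` are the hyperplanes of the divisors which contain `n + 3` points of
`P^1`, if `P^n` is identified with the space of the effective divisors of degree `n` on `P^1`.
-/

set_option autoImplicit false

namespace Pool.Agent.Q63.SP

open Polynomial

/-- The hyperplanes `v i ⬝ᵥ z = 0` of `P^n` are in general position: no point of `P^n` is contained in `n + 1` of
them. -/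
def GenPos {k : Type} [Field k] [DecidableEq k] {s n : ℕ} (v : Fin s → Fin (n + 1) → k) : Prop :=
  ∀ z : Fin (n + 1) → k, z ≠ 0 → (Finset.univ.filter fun i => v i ⬝ᵥ z = 0).card ≤ n

variable {k : Type} [Field k] [DecidableEq k] {n : ℕ}

/-- at least three of the forms are nonzero at `z` -/
lemma GenPos.three {v : Fin (n + 3) → Fin (n + 1) → k} (hv : GenPos v) {z : Fin (n + 1) → k} (hz : z ≠ 0) :
    3 ≤ (Finset.univ.filter fun i => v i ⬝ᵥ z ≠ 0).card := by
  have h1 := hv z hz
  have h2 := Finset.card_filter_add_card_filter_not (s := (Finset.univ : Finset (Fin (n + 3))))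
    (fun i => v i ⬝ᵥ z = 0)
  rw [Finset.card_univ, Fintype.card_fin] at h2
  change 3 ≤ (Finset.univ.filter fun i => ¬ (v i ⬝ᵥ z = 0)).card
  omega

/-- a vector killed by all forms outside a set with two elements is zero -/
lemma GenPos.eq_zero {v : Fin (n + 3) → Fin (n + 1) → k} (hv : GenPos v) {z : Fin (n + 1) → k}
    (a b : Fin (n + 3)) (h : ∀ i, i ≠ a → i ≠ b → v i ⬝ᵥ z = 0) : z = 0 := by
  by_contra hz
  have h1 := hv.three hz
  have h2 : (Finset.univ.filter fun i => v i ⬝ᵥ z ≠ 0) ⊆ {a, b} := by
    intro i hi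
    rw [Finset.mem_filter] at hi
    rw [Finset.mem_insert, Finset.mem_singleton]
    by_contra hcon
    push Not at hcon
    exact hi.2 (h i hcon.1 hcon.2)
  have h3 := Finset.card_le_card h2
  have h4 : ({a, b} : Finset (Fin (n + 3))).card ≤ 2 := Finset.card_le_two
  omega

/-- the index of the first `n + 1` forms -/
def fst (j : Fin (n + 1)) : Fin (n + 3) := j.castSucc.castSucc

/-- the next index -/
def idA : Fin (n + 3) := (Fin.last (n + 1)).castSucc

/-- the last index -/
def idB : Fin (n + 3) := Fin.last (n + 2)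

lemma idx_cases (i : Fin (n + 3)) : (∃ j, i = fst j) ∨ i = idA ∨ i = idB := by
  rcases Fin.eq_castSucc_or_eq_last i with ⟨i', rfl⟩ | h
  · rcases Fin.eq_castSucc_or_eq_last i' with ⟨j, rfl⟩ | h
    · exact Or.inl ⟨j, rfl⟩
    · exact Or.inr (Or.inl (by rw [h]; rfl))
  · exact Or.inr (Or.inr h)

lemma fst_ne_A (j : Fin (n + 1)) : (fst j : Fin (n + 3)) ≠ idA := by
  intro h
  have := congrArg Fin.val h
  simp [fst, idA] at this
  omega

lemma fst_ne_B (j : Fin (n + 1)) : (fst j : Fin (n + 3)) ≠ idB := by
  intro h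
  have := congrArg Fin.val h
  simp [fst, idB] at this
  omega

lemma A_ne_B : (idA : Fin (n + 3)) ≠ idB := by
  intro h
  have := congrArg Fin.val h
  simp [idA, idB] at this

lemma fst_inj {i j : Fin (n + 1)} (h : (fst i : Fin (n + 3)) = fst j) : i = j := by
  have := congrArg Fin.val h
  simp [fst] at this
  exact Fin.ext this

/-- the dual basis of the first `n + 1` forms -/
lemma exists_dual {v : Fin (n + 3) → Fin (n + 1) → k} (hv : GenPos v) :
    ∃ e : Fin (n + 1) → Fin (n + 1) → k, (∀ i j, v (fst i) ⬝ᵥ e j = if i = j then 1 else 0) ∧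
      ∀ z, z = ∑ j, (v (fst j) ⬝ᵥ z) • e j := by
  let φ : (Fin (n + 1) → k) →ₗ[k] (Fin (n + 1) → k) :=
    { toFun := fun z j => v (fst j) ⬝ᵥ z
      map_add' := fun x y => by funext j; simp [dotProduct_add]
      map_smul' := fun c x => by funext j; simp [dotProduct_smul] }
  have hinj : Function.Injective φ := by
    rw [injective_iff_map_eq_zero]
    intro z hz
    refine hv.eq_zero idA idB fun i hA hB => ?_
    rcases idx_cases i with ⟨j, rfl⟩ | h | h
    · exact congrFun hz j
    · exact absurd h hA
    · exact absurd h hB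
  let ε := LinearEquiv.ofInjectiveEndo φ hinj
  have hε : ∀ z j, ε z j = v (fst j) ⬝ᵥ z := fun z j => rfl
  refine ⟨fun j => ε.symm (Pi.single j 1), fun i j => ?_, fun z => ?_⟩
  · rw [← hε, LinearEquiv.apply_symm_apply, Pi.single_apply]
  · apply ε.injective
    rw [map_sum]
    funext i
    rw [hε, Finset.sum_apply]
    simp_rw [map_smul, LinearEquiv.apply_symm_apply, Pi.smul_apply, Pi.single_apply, smul_eq_mul,
      mul_ite, mul_one, mul_zero]
    rw [Finset.sum_ite_eq Finset.univ i, if_pos (Finset.mem_univ _)]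

/-- `P^n` is the `n`-th symmetric power of `P^1`: there are points `p i` such that the values of the forms are given by
the values at the `p i` of a polynomial of degree at most `n`. -/
theorem exists_points [Infinite k] {v : Fin (n + 3) → Fin (n + 1) → k} (hv : GenPos v) :
    ∃ (p c : Fin (n + 3) → k), Function.Injective p ∧ (∀ i, c i ≠ 0) ∧
      ∀ F : k[X], F.degree < (n + 1 : ℕ) → ∃ z, ∀ i, v i ⬝ᵥ z = c i * F.eval (p i) := by
  classical
  obtain ⟨e, he, hsum⟩ := exists_dual hv
  set α : Fin (n + 1) → k := fun j => v idA ⬝ᵥ e j with hα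
  set β : Fin (n + 1) → k := fun j => v idB ⬝ᵥ e j with hβ
  have he0 : ∀ j, e j ≠ 0 := by
    intro j h
    have := he j j
    rw [h, if_pos rfl, dotProduct_zero] at this
    exact one_ne_zero this.symm
  have hα0 : ∀ j, α j ≠ 0 := by
    intro j h
    refine he0 j (hv.eq_zero (fst j) idB fun i h1 h2 => ?_)
    rcases idx_cases i with ⟨l, rfl⟩ | rfl | h3
    · rw [he, if_neg (fun h4 => h1 (by rw [h4]))]
    · exact h
    · exact absurd h3 h2
  have hβ0 : ∀ j, β j ≠ 0 := by
    intro j h
    refine he0 j (hv.eq_zero (fst j) idA fun i h1 h2 => ?_)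
    rcases idx_cases i with ⟨l, rfl⟩ | h3 | rfl
    · rw [he, if_neg (fun h4 => h1 (by rw [h4]))]
    · exact absurd h3 h2
    · exact h
  have hcross : ∀ i j, i ≠ j → α j * β i ≠ α i * β j := by
    intro i j hij h
    have hz : α j • e i - α i • e j = 0 := by
      refine hv.eq_zero (fst i) (fst j) fun l h1 h2 => ?_
      rcases idx_cases l with ⟨l', rfl⟩ | rfl | rfl
      · rw [dotProduct_sub, dotProduct_smul, dotProduct_smul, he, he,
          if_neg (fun h4 => h1 (by rw [h4])), if_neg (fun h4 => h2 (by rw [h4]))]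
        simp
      · rw [dotProduct_sub, dotProduct_smul, dotProduct_smul, smul_eq_mul, smul_eq_mul]
        change α j * α i - α i * α j = 0
        ring
      · rw [dotProduct_sub, dotProduct_smul, dotProduct_smul, smul_eq_mul, smul_eq_mul]
        change α j * β i - α i * β j = 0
        rw [h, sub_self]
    have h1 : v (fst i) ⬝ᵥ (α j • e i - α i • e j) = α j := by
      rw [dotProduct_sub, dotProduct_smul, dotProduct_smul, he, he, if_pos rfl, if_neg hij]
      simp
    rw [hz, dotProduct_zero] at h1
    exact hα0 j h1.symm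
  obtain ⟨κ, hκ⟩ := Infinite.exists_notMem_finset
    (insert (0 : k) (Finset.univ.image fun j => α j / β j))
  rw [Finset.mem_insert, Finset.mem_image] at hκ
  push Not at hκ
  obtain ⟨hκ0, hκ1⟩ := hκ
  have hd : ∀ j, κ * β j - α j ≠ 0 := by
    intro j h
    apply hκ1 j (Finset.mem_univ _)
    rw [div_eq_iff (hβ0 j)]
    exact (sub_eq_zero.1 h).symm
  -- the points `p j`
  set q : Fin (n + 1) → k := fun j => κ * β j / (κ * β j - α j) with hq
  have hq0 : ∀ j, q j ≠ 0 := fun j => div_ne_zero (mul_ne_zero hκ0 (hβ0 j)) (hd j)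
  have hq1 : ∀ j, 1 - q j ≠ 0 := by
    intro j h
    rw [sub_eq_zero, hq] at h
    simp only at h
    rw [eq_div_iff (hd j), one_mul] at h
    exact hα0 j (by linear_combination (-1 : k) * h)
  have hqi : Function.Injective q := by
    intro i j hij
    by_contra hne
    apply hcross i j hne
    rw [hq] at hij
    simp only at hij
    rw [div_eq_div_iff (hd i) (hd j)] at hij
    have : κ * (α j * β i - α i * β j) = 0 := by linear_combination -hij
    rcases mul_eq_zero.1 this with h | h
    · exact absurd h hκ0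
    · exact sub_eq_zero.1 h
  have hqj : Set.InjOn q (Finset.univ : Finset (Fin (n + 1))) := hqi.injOn
  -- Lagrange polynomials
  set L : Fin (n + 1) → k[X] := fun j => Lagrange.basis Finset.univ q j with hL
  have hF : ∀ F : k[X], F.degree < (n + 1 : ℕ) → ∀ t, F.eval t = ∑ j, F.eval (q j) * (L j).eval t := by
    intro F hdeg t
    have h1 := Lagrange.eq_interpolate (s := Finset.univ) (v := q) (f := F) hqj (by
      rw [Finset.card_univ, Fintype.card_fin]; exact hdeg)
    conv_lhs => rw [h1]
    rw [Lagrange.interpolate_apply, eval_finsetSum]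
    refine Finset.sum_congr rfl fun j _ => ?_
    rw [eval_mul, eval_C]
  set N0 : k := ∏ l, (0 - q l) with hN0
  set N1 : k := ∏ l, (1 - q l) with hN1
  have hN00 : N0 ≠ 0 := Finset.prod_ne_zero_iff.2 fun l _ => by rw [zero_sub]; exact neg_ne_zero.2 (hq0 l)
  have hN10 : N1 ≠ 0 := Finset.prod_ne_zero_iff.2 fun l _ => hq1 l
  have hLe : ∀ j t, (L j).eval t * (∏ l ∈ Finset.univ.erase j, (q j - q l)) * (t - q j) = ∏ l, (t - q l) := by
    intro j t
    rw [hL]
    simp only [Lagrange.basis, Lagrange.basisDivisor]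
    rw [eval_prod, ← Finset.mul_prod_erase Finset.univ (fun l => t - q l) (Finset.mem_univ j),
      ← Finset.prod_mul_distrib, mul_comm]
    congr 1
    refine Finset.prod_congr rfl fun l hl => ?_
    have hne : q j - q l ≠ 0 := sub_ne_zero.2 fun h => (Finset.ne_of_mem_erase hl) (hqi h).symm
    rw [eval_mul, eval_C, eval_sub, eval_X, eval_C]
    field_simp
  have hD : ∀ j, (∏ l ∈ Finset.univ.erase j, (q j - q l)) ≠ 0 := fun j =>
    Finset.prod_ne_zero_iff.2 fun l hl =>
      sub_ne_zero.2 fun h => (Finset.ne_of_mem_erase hl) (hqi h).symm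
  have hL0 : ∀ j, (L j).eval 0 ≠ 0 := by
    intro j h
    have := hLe j 0
    rw [h, zero_mul, zero_mul] at this
    exact hN00 this.symm
  have hratio : ∀ j, (L j).eval 1 * (N0 * α j) = (L j).eval 0 * (N1 * (κ * β j)) := by
    intro j
    have h0 := hLe j 0
    have h1 := hLe j 1
    rw [← hN0] at h0
    rw [← hN1] at h1
    have hqe : q j * (κ * β j - α j) = κ * β j := div_mul_cancel₀ _ (hd j)
    have h2 : (1 - q j) * (κ * β j) = (0 - q j) * α j := by linear_combination -hqe
    have h3 : ((L j).eval 1 * (N0 * α j) - (L j).eval 0 * (N1 * (κ * β j))) *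
        ((∏ l ∈ Finset.univ.erase j, (q j - q l)) * (0 - q j)) = 0 := by
      have e1 : (L j).eval 0 * ((∏ l ∈ Finset.univ.erase j, (q j - q l)) * (0 - q j)) = N0 := by
        rw [← h0]; ring
      have e2 : (L j).eval 1 * (∏ l ∈ Finset.univ.erase j, (q j - q l)) * (1 - q j) = N1 := h1
      calc ((L j).eval 1 * (N0 * α j) - (L j).eval 0 * (N1 * (κ * β j))) *
            ((∏ l ∈ Finset.univ.erase j, (q j - q l)) * (0 - q j))
          = (L j).eval 1 * (∏ l ∈ Finset.univ.erase j, (q j - q l)) * N0 * ((0 - q j) * α j) -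
            ((L j).eval 0 * ((∏ l ∈ Finset.univ.erase j, (q j - q l)) * (0 - q j))) * N1 * (κ * β j) := by
              ring
        _ = (L j).eval 1 * (∏ l ∈ Finset.univ.erase j, (q j - q l)) * N0 * ((1 - q j) * (κ * β j)) -
            N0 * N1 * (κ * β j) := by rw [h2, e1]
        _ = ((L j).eval 1 * (∏ l ∈ Finset.univ.erase j, (q j - q l)) * (1 - q j)) * N0 * (κ * β j) -
            N0 * N1 * (κ * β j) := by ring
        _ = 0 := by rw [e2]; ring
    rcases mul_eq_zero.1 h3 with h | h
    · exact sub_eq_zero.1 h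
    · rcases mul_eq_zero.1 h with h | h
      · exact absurd h (hD j)
      · rw [zero_sub, neg_eq_zero] at h
        exact absurd h (hq0 j)
  -- the data
  let p : Fin (n + 3) → k := fun i => Fin.lastCases (motive := fun _ => k) 1
    (fun i' => Fin.lastCases (motive := fun _ => k) 0 q i') i
  let c : Fin (n + 3) → k := fun i => Fin.lastCases (motive := fun _ => k) (N0 / (N1 * κ))
    (fun i' => Fin.lastCases (motive := fun _ => k) 1 (fun j => (L j).eval 0 / α j) i') i
  have hpB : p idB = 1 := by simp [p, idB]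
  have hpA : p idA = 0 := by simp [p, idA]
  have hpf : ∀ j, p (fst j) = q j := fun j => by simp [p, fst]
  have hcB : c idB = N0 / (N1 * κ) := by simp [c, idB]
  have hcA : c idA = 1 := by simp [c, idA]
  have hcf : ∀ j, c (fst j) = (L j).eval 0 / α j := fun j => by simp [c, fst]
  refine ⟨p, c, ?_, ?_, ?_⟩
  · intro i j hij
    rcases idx_cases i with ⟨i', rfl⟩ | rfl | rfl <;> rcases idx_cases j with ⟨j', rfl⟩ | rfl | rfl
    · rw [hpf, hpf] at hij
      rw [hqi hij]
    · rw [hpf, hpA] at hij
      exact absurd hij (hq0 i')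
    · rw [hpf, hpB] at hij
      exact absurd (by rw [hij, sub_self]) (hq1 i')
    · rw [hpf, hpA] at hij
      exact absurd hij.symm (hq0 j')
    · rfl
    · rw [hpA, hpB] at hij
      exact absurd hij zero_ne_one
    · rw [hpf, hpB] at hij
      exact absurd (by rw [← hij, sub_self]) (hq1 j')
    · rw [hpA, hpB] at hij
      exact absurd hij.symm zero_ne_one
    · rfl
  · intro i
    rcases idx_cases i with ⟨j, rfl⟩ | rfl | rfl
    · rw [hcf]
      exact div_ne_zero (hL0 j) (hα0 j)
    · rw [hcA]
      exact one_ne_zero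
    · rw [hcB]
      exact div_ne_zero hN00 (mul_ne_zero hN10 hκ0)
  · intro F hdeg
    refine ⟨∑ j, (c (fst j) * F.eval (q j)) • e j, fun i => ?_⟩
    rw [dotProduct_sum]
    simp_rw [dotProduct_smul, smul_eq_mul]
    rcases idx_cases i with ⟨l, rfl⟩ | rfl | rfl
    · simp_rw [he, mul_ite, mul_one, mul_zero]
      rw [Finset.sum_ite_eq Finset.univ l, if_pos (Finset.mem_univ _), hpf]
    · rw [hcA, hpA, one_mul, hF F hdeg 0]
      refine Finset.sum_congr rfl fun j _ => ?_
      rw [hcf]
      change (L j).eval 0 / α j * F.eval (q j) * α j = _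
      field_simp [hα0 j]
    · rw [hcB, hpB, hF F hdeg 1, Finset.mul_sum]
      refine Finset.sum_congr rfl fun j _ => ?_
      rw [hcf]
      change (L j).eval 0 / α j * F.eval (q j) * β j = _
      have h1 := hratio j
      rw [div_mul_eq_mul_div, div_mul_eq_mul_div, div_mul_eq_mul_div, div_eq_div_iff (hα0 j)
        (mul_ne_zero hN10 hκ0)]
      linear_combination (-F.eval (q j)) * h1

end Pool.Agent.Q63.SP
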