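import Mathlib
import Pool.Agent.Q63.SP.Geom

/-!
# Cyclic coverings of projective spaces over `n + 3` hyperplanes are quotients of powers of curves
-/

set_option autoImplicit false

namespace Pool.Agent.Q63.SP

open Polynomial

/-- The affine curve `y ^ m = ∏ i, (p i - x) ^ (a i)`. -/
def curve {k : Type} [Field k] {s : ℕ} (m : ℕ) (p : Fin s → k) (a : Fin s → ℕ) : Set (k × k) :=
  {t | t.2 ^ m = ∏ i, (p i - t.1) ^ a i}

/-- The affine part (the complement of the hyperplane `w ⬝ᵥ z = 0`) of the cyclic covering of `P^n` given by the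
`m`-th root of `∏ i, (v i ⬝ᵥ z) ^ (a i)`. -/
def cover {k : Type} [Field k] {s n : ℕ} (m : ℕ) (v : Fin s → Fin (n + 1) → k) (w : Fin (n + 1) → k)
    (a : Fin s → ℕ) : Set ((Fin (n + 1) → k) × k) :=
  {t | w ⬝ᵥ t.1 = 1 ∧ t.2 ^ m = ∏ i, (v i ⬝ᵥ t.1) ^ a i}

/-- The point `t` of the covering is the image of the point `u` of the power of the curve: the forms `v i` and the
last coordinate have the values given by products over the coordinates of `u`. -/
def IsImage {k : Type} [Field k] {s n : ℕ} (v : Fin s → Fin (n + 1) → k) (p c : Fin s → k) (γ : k)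
    (u : Fin n → k × k) (t : (Fin (n + 1) → k) × k) : Prop :=
  (∀ i, v i ⬝ᵥ t.1 = c i * ∏ l, (p i - (u l).1)) ∧ t.2 = γ * ∏ l, (u l).2

variable {k : Type} [Field k] [DecidableEq k] {n : ℕ}

lemma exists_roots [IsAlgClosed k] {F : k[X]} (hF : F.Monic) (hn : F.natDegree = n) :
    ∃ x : Fin n → k, F = ∏ l, (X - C (x l)) := by
  have h1 : F = (F.roots.map fun a => X - C a).prod :=
    (IsAlgClosed.splits F).eq_prod_roots_of_monic hF
  have h2 : F.roots.toList.length = n := by
    rw [Multiset.length_toList, ← hn]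
    exact (IsAlgClosed.splits F).natDegree_eq_card_roots.symm
  subst h2
  refine ⟨fun l => F.roots.toList[l.1], ?_⟩
  rw [Fin.prod_univ_fun_getElem F.roots.toList (fun a => X - C a)]
  rw [← Multiset.prod_coe, ← Multiset.map_coe, Multiset.coe_toList]
  exact h1

/-- `P^n` is the `n`-th symmetric power of `P^1`. -/
theorem sym_power [IsAlgClosed k] {v : Fin (n + 3) → Fin (n + 1) → k} (hv : GenPos v) :
    ∃ (p c : Fin (n + 3) → k) (w : Fin (n + 1) → k), Function.Injective p ∧ (∀ i, c i ≠ 0) ∧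
      (∀ x : Fin n → k, ∃ z, w ⬝ᵥ z = 1 ∧ ∀ i, v i ⬝ᵥ z = c i * ∏ l, (p i - x l)) ∧
      (∀ z, w ⬝ᵥ z = 1 → ∃ x : Fin n → k, ∀ i, v i ⬝ᵥ z = c i * ∏ l, (p i - x l)) := by
  classical
  obtain ⟨p, c, hp, hc, hex⟩ := exists_points hv
  -- the nodes
  set q : Fin (n + 1) → k := fun j => p (fst j) with hq
  have hqj : Set.InjOn q (Finset.univ : Finset (Fin (n + 1))) := fun i _ j _ h => fst_inj (hp h)
  let r : (Fin (n + 1) → k) →ₗ[k] (Fin (n + 1) → k) :=
    { toFun := fun z j => (c (fst j))⁻¹ * (v (fst j) ⬝ᵥ z)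
      map_add' := fun x y => by funext j; simp only [Pi.add_apply, dotProduct_add, mul_add]
      map_smul' := fun d x => by
        funext j
        simp only [Pi.smul_apply, dotProduct_smul, smul_eq_mul, RingHom.id_apply]
        ring }
  have hr : ∀ z j, r z j = (c (fst j))⁻¹ * (v (fst j) ⬝ᵥ z) := fun _ _ => rfl
  set G : (Fin (n + 1) → k) → k[X] := fun z => Lagrange.interpolate Finset.univ q (r z) with hG
  let W : (Fin (n + 1) → k) →ₗ[k] k := (lcoeff k n) ∘ₗ (Lagrange.interpolate Finset.univ q) ∘ₗ r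
  have hW : ∀ z, W z = (G z).coeff n := fun _ => rfl
  have hdegG : ∀ z, (G z).degree < (n + 1 : ℕ) := by
    intro z
    have := Lagrange.degree_interpolate_lt (s := Finset.univ) (v := q) (r z) hqj
    rwa [Finset.card_univ, Fintype.card_fin] at this
  have hval : ∀ z j, (G z).eval (q j) = (c (fst j))⁻¹ * (v (fst j) ⬝ᵥ z) := by
    intro z j
    rw [hG]
    exact Lagrange.eval_interpolate_at_node _ hqj (Finset.mem_univ j)
  have huniq : ∀ z z' : Fin (n + 1) → k, (∀ j, v (fst j) ⬝ᵥ z = v (fst j) ⬝ᵥ z') → z = z' := by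
    intro z z' h
    rw [← sub_eq_zero]
    refine hv.eq_zero idA idB fun i hA hB => ?_
    rcases idx_cases i with ⟨j, rfl⟩ | h3 | h3
    · rw [dotProduct_sub, h j, sub_self]
    · exact absurd h3 hA
    · exact absurd h3 hB
  have hall : ∀ z i, v i ⬝ᵥ z = c i * (G z).eval (p i) := by
    intro z i
    obtain ⟨z', hz'⟩ := hex (G z) (hdegG z)
    have : z = z' := by
      refine huniq z z' fun j => ?_
      rw [hz' (fst j)]
      change _ = c (fst j) * (G z).eval (q j)
      rw [hval, mul_inv_cancel_left₀ (hc _)]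
    rw [← hz' i, ← this]
  let w : Fin (n + 1) → k := fun j => W (Pi.single j 1)
  have hw : ∀ z, w ⬝ᵥ z = (G z).coeff n := by
    intro z
    rw [← hW, LinearMap.pi_apply_eq_sum_univ W z, dotProduct]
    refine Finset.sum_congr rfl fun j _ => ?_
    have h7 : (fun i => if i = j then (1 : k) else 0) = Pi.single j 1 := by
      funext i
      rw [Pi.single_apply]
    rw [smul_eq_mul, mul_comm (w j)]
    change z j * W (Pi.single j 1) = _
    rw [← h7]
    first
      | rfl
      | (congr 2; funext i; simp only [eq_comm])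
  refine ⟨p, c, w, hp, hc, fun x => ?_, fun z hz => ?_⟩
  · set F : k[X] := ∏ l, (X - C (x l)) with hF
    have hm : F.Monic := monic_prod_of_monic _ _ fun l _ => monic_X_sub_C (x l)
    have hnd : F.natDegree = n := by
      rw [hF, natDegree_prod_of_monic _ _ fun l _ => monic_X_sub_C (x l)]
      simp
    have hdeg : F.degree < (n + 1 : ℕ) := by
      rw [degree_eq_natDegree hm.ne_zero, hnd]
      exact_mod_cast Nat.lt_succ_self n
    have hev : ∀ t, F.eval t = ∏ l, (t - x l) := by
      intro t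
      rw [hF, eval_prod]
      exact Finset.prod_congr rfl fun l _ => by rw [eval_sub, eval_X, eval_C]
    obtain ⟨z, hz⟩ := hex F hdeg
    refine ⟨z, ?_, fun i => by rw [hz i, hev]⟩
    have hGF : G z = F := by
      have h1 := Lagrange.eq_interpolate (s := Finset.univ) (v := q) (f := F) hqj (by
        rw [Finset.card_univ, Fintype.card_fin]; exact hdeg)
      rw [h1, hG]
      simp only
      congr 1
      funext j
      rw [hr, hz (fst j), inv_mul_cancel_left₀ (hc _)]
    rw [hw, hGF, ← hnd]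
    exact hm.coeff_natDegree
  · rw [hw] at hz
    have hnd : (G z).natDegree = n := by
      apply le_antisymm
      · have h1 := hdegG z
        by_cases h0 : G z = 0
        · rw [h0, natDegree_zero]
          exact Nat.zero_le n
        · rw [degree_eq_natDegree h0] at h1
          have h2 : (G z).natDegree < n + 1 := by exact_mod_cast h1
          omega
      · exact le_natDegree_of_ne_zero (by rw [hz]; exact one_ne_zero)
    have hm : (G z).Monic := by
      rw [Monic, leadingCoeff, hnd]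
      exact hz
    obtain ⟨x, hx⟩ := exists_roots hm hnd
    refine ⟨x, fun i => ?_⟩
    rw [hall z i, hx, eval_prod]
    congr 1
    exact Finset.prod_congr rfl fun l _ => by rw [eval_sub, eval_X, eval_C]

/-- The affine part of a cyclic covering of `P^n` over `n + 3` hyperplanes in general position is the image of the
`n`-th power of a curve. -/
theorem cover_of_curves [IsAlgClosed k] (hn : 0 < n) {v : Fin (n + 3) → Fin (n + 1) → k}
    (hv : GenPos v) :
    ∃ (p c : Fin (n + 3) → k) (w : Fin (n + 1) → k), Function.Injective p ∧ (∀ i, c i ≠ 0) ∧ w ≠ 0 ∧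
      ∀ (m : ℕ) (a : Fin (n + 3) → ℕ), 0 < m → ∃ γ : k, γ ^ m = ∏ i, c i ^ a i ∧
        (∀ u : Fin n → k × k, (∀ l, u l ∈ curve m p a) →
          ∃! t, t ∈ cover m v w a ∧ IsImage v p c γ u t) ∧
        (∀ t ∈ cover m v w a, ∃ u : Fin n → k × k, (∀ l, u l ∈ curve m p a) ∧ IsImage v p c γ u t) := by
  obtain ⟨p, c, w, hp, hc, h1, h2⟩ := sym_power hv
  have hw : w ≠ 0 := by
    rintro rfl
    obtain ⟨z, hz, -⟩ := h1 fun _ => 0
    rw [zero_dotProduct] at hz
    exact zero_ne_one hz
  refine ⟨p, c, w, hp, hc, hw, fun m a hm => ?_⟩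
  obtain ⟨γ, hγ⟩ := IsAlgClosed.exists_pow_nat_eq (∏ i, c i ^ a i) hm
  have hpow : ∀ (x : Fin n → k) (z : Fin (n + 1) → k) (y : Fin n → k),
      (∀ i, v i ⬝ᵥ z = c i * ∏ l, (p i - x l)) → (∀ l, y l ^ m = ∏ i, (p i - x l) ^ a i) →
      (γ * ∏ l, y l) ^ m = ∏ i, (v i ⬝ᵥ z) ^ a i := by
    intro x z y hz hy
    rw [mul_pow, hγ, ← Finset.prod_pow, Finset.prod_congr rfl fun l _ => hy l, Finset.prod_comm,
      ← Finset.prod_mul_distrib]
    refine Finset.prod_congr rfl fun i _ => ?_
    rw [hz i, mul_pow, Finset.prod_pow]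
  refine ⟨γ, hγ, fun u hu => ?_, fun t ht => ?_⟩
  · obtain ⟨z, hz1, hz2⟩ := h1 fun l => (u l).1
    refine ⟨(z, γ * ∏ l, (u l).2), ⟨⟨hz1, ?_⟩, hz2, rfl⟩, ?_⟩
    · exact hpow (fun l => (u l).1) z (fun l => (u l).2) hz2 fun l => hu l
    · rintro ⟨z', y'⟩ ⟨-, hz', hy'⟩
      refine Prod.ext ?_ hy'
      rw [← sub_eq_zero]
      refine hv.eq_zero idA idB fun i _ _ => ?_
      change v i ⬝ᵥ (z' - z) = 0
      rw [dotProduct_sub, hz2 i]
      exact sub_eq_zero.2 (hz' i)
  · obtain ⟨z, y⟩ := t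
    obtain ⟨hz, hy⟩ := ht
    obtain ⟨x, hx⟩ := h2 z hz
    have hroot : ∀ l, ∃ b : k, b ^ m = ∏ i, (p i - x l) ^ a i := fun l =>
      IsAlgClosed.exists_pow_nat_eq _ hm
    choose b hb using hroot
    have h3 := hpow x z b hx hb
    simp only at hy
    rw [← hy] at h3
    by_cases hy0 : y = 0
    · refine ⟨fun l => (x l, b l), fun l => hb l, hx, ?_⟩
      rw [hy0, zero_pow hm.ne'] at h3
      simp only
      rw [hy0]
      exact ((pow_eq_zero_iff hm.ne').1 h3).symm
    · have hg0 : γ * ∏ l, b l ≠ 0 := by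
        intro h
        rw [h, zero_pow hm.ne'] at h3
        exact hy0 (pow_eq_zero_iff hm.ne' |>.1 h3.symm)
      let l0 : Fin n := ⟨0, hn⟩
      set ζ : k := y / (γ * ∏ l, b l) with hζ
      have hζm : ζ ^ m = 1 := by
        rw [hζ, div_pow, h3, div_self (pow_ne_zero _ hy0)]
      refine ⟨fun l => (x l, if l = l0 then ζ * b l else b l), fun l => ?_, hx, ?_⟩
      · change (if l = l0 then ζ * b l else b l) ^ m = ∏ i, (p i - x l) ^ a i
        split_ifs with h
        · rw [mul_pow, hζm, one_mul, hb]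
        · exact hb l
      · change y = γ * ∏ l, (if l = l0 then ζ * b l else b l)
        have h5 : ∏ l, (if l = l0 then ζ * b l else b l) = ζ * ∏ l, b l := by
          rw [← Finset.mul_prod_erase Finset.univ _ (Finset.mem_univ l0),
            ← Finset.mul_prod_erase Finset.univ b (Finset.mem_univ l0), if_pos rfl, mul_assoc]
          congr 2
          exact Finset.prod_congr rfl fun l hl => if_neg (Finset.ne_of_mem_erase hl)
        rw [h5, ← mul_assoc, mul_comm γ ζ, mul_assoc, hζ, div_mul_cancel₀ _ hg0]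

end Pool.Agent.Q63.SP
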