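import Mathlib
import Pool.Agent.Q63.SP.Cover

/-!
# Coverings over osculating hyperplanes of rational normal curves are quotients of powers of curves
-/

set_option autoImplicit false

namespace Pool.Agent.Q63.SP

open Polynomial Matrix

/-- The hyperplanes `v i ⬝ᵥ z = 0` of `P^n`, `i` in `S`, are different osculating hyperplanes of a rational normal
curve: the vectors `v i` are, up to factors, the points `(1, p i, …, (p i) ^ n)` in suitable coordinates. -/
def Osculating {k : Type} [Field k] {s n : ℕ} (v : Fin s → Fin (n + 1) → k) (S : Set (Fin s)) : Prop :=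
  ∃ (g : (Matrix (Fin (n + 1)) (Fin (n + 1)) k)ˣ) (p c : Fin s → k), Set.InjOn p S ∧
    ∀ i ∈ S, c i ≠ 0 ∧ v i ᵥ* (g : Matrix (Fin (n + 1)) (Fin (n + 1)) k) = c i • fun j : Fin (n + 1) => p i ^ (j : ℕ)

/-- The symmetric map: the first component of the image of `u` is the vector of the coefficients of the polynomial with
the roots `(u l).1`, in other linear coordinates, the last one is a multiple of the product of the `(u l).2`. -/
noncomputable def symMap {k : Type} [Field k] {n : ℕ} (g : (Matrix (Fin (n + 1)) (Fin (n + 1)) k)ˣ) (γ : k)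
    (u : Fin n → k × k) : (Fin (n + 1) → k) × k :=
  ((g : Matrix (Fin (n + 1)) (Fin (n + 1)) k) *ᵥ (fun j => (∏ l, (X - C (u l).1)).coeff (j : ℕ)),
    γ * ∏ l, (u l).2)

/-- The affine part of the cyclic covering of `P^n` with the exponents `a` is the image of the `n`-th power of the curve
`y ^ m = ∏ i, (p i - x) ^ (a i)` under a symmetric map. -/
def IsCurvePower {k : Type} [Field k] {s n : ℕ} (m : ℕ) (v : Fin s → Fin (n + 1) → k) (a : Fin s → ℕ) : Prop :=
  ∃ (g : (Matrix (Fin (n + 1)) (Fin (n + 1)) k)ˣ) (w : Fin (n + 1) → k) (p : Fin s → k) (γ : k), w ≠ 0 ∧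
    γ ≠ 0 ∧ Set.InjOn p {i | a i ≠ 0} ∧
    cover m v w a = symMap g γ '' {u | ∀ l, u l ∈ curve m p a}

variable {k : Type} [Field k] [DecidableEq k] {n s : ℕ}

/-- the vector of the coefficients of a polynomial of degree at most `n` -/
noncomputable def cf (n : ℕ) (F : k[X]) : Fin (n + 1) → k := fun j => F.coeff j

omit [DecidableEq k] in
lemma cf_eval {F : k[X]} (hF : F.natDegree ≤ n) (t : k) :
    (fun j : Fin (n + 1) => t ^ (j : ℕ)) ⬝ᵥ cf n F = F.eval t := by
  rw [eval_eq_sum_range' (Nat.lt_succ_of_le hF), dotProduct, ← Fin.sum_univ_eq_sum_range]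
  exact Finset.sum_congr rfl fun j _ => by rw [cf, mul_comm]

omit [DecidableEq k] in
/-- a vector is the vector of the coefficients of a polynomial -/
lemma exists_poly (f : Fin (n + 1) → k) : ∃ F : k[X], F.natDegree ≤ n ∧ cf n F = f := by
  refine ⟨∑ j : Fin (n + 1), C (f j) * X ^ (j : ℕ), ?_, ?_⟩
  · refine natDegree_sum_le_of_forall_le _ _ fun j _ => ?_
    exact le_trans (natDegree_C_mul_X_pow_le _ _) (Nat.lt_succ_iff.1 j.2)
  · funext i
    simp only [cf, finsetSum_coeff, coeff_C_mul, coeff_X_pow, mul_ite, mul_one, mul_zero]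
    rw [Finset.sum_eq_single i]
    · rw [if_pos rfl]
    · intro j _ hj
      rw [if_neg]
      intro h
      exact hj (Fin.ext h.symm)
    · intro h
      exact absurd (Finset.mem_univ i) h

/-- coverings over osculating hyperplanes -/
theorem curvePower_of_osculating [IsAlgClosed k] (hn : 0 < n) {m : ℕ} (hm : 0 < m)
    {v : Fin s → Fin (n + 1) → k} {a : Fin s → ℕ} (h : Osculating v {i | a i ≠ 0}) :
    IsCurvePower m v a := by
  classical
  obtain ⟨g, p, c, hp, hc⟩ := h
  obtain ⟨γ, hγ⟩ := IsAlgClosed.exists_pow_nat_eq (∏ i, (if a i = 0 then 1 else c i) ^ a i) hm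
  have hγ0 : γ ≠ 0 := by
    rintro rfl
    rw [zero_pow hm.ne'] at hγ
    refine (Finset.prod_ne_zero_iff.2 fun i _ => ?_) hγ.symm
    by_cases hi : a i = 0
    · rw [if_pos hi, one_pow]
      exact one_ne_zero
    · rw [if_neg hi]
      exact pow_ne_zero _ (hc i hi).1
  let w : Fin (n + 1) → k := (Pi.single (Fin.last n) 1) ᵥ* ((g⁻¹ : (Matrix (Fin (n + 1)) (Fin (n + 1)) k)ˣ) : Matrix (Fin (n + 1)) (Fin (n + 1)) k)
  have hw : ∀ f : Fin (n + 1) → k, w ⬝ᵥ ((g : Matrix (Fin (n + 1)) (Fin (n + 1)) k) *ᵥ f) = f (Fin.last n) := by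
    intro f
    rw [dotProduct_mulVec, vecMul_vecMul, ← Units.val_mul, inv_mul_cancel, Units.val_one, vecMul_one,
      single_dotProduct, one_mul]
  have hw' : ∀ z : Fin (n + 1) → k, ∃ f, z = (g : Matrix (Fin (n + 1)) (Fin (n + 1)) k) *ᵥ f := by
    intro z
    refine ⟨((g⁻¹ : (Matrix (Fin (n + 1)) (Fin (n + 1)) k)ˣ) : Matrix (Fin (n + 1)) (Fin (n + 1)) k) *ᵥ z, ?_⟩
    rw [mulVec_mulVec, ← Units.val_mul, mul_inv_cancel, Units.val_one, one_mulVec]
  have hw0 : w ≠ 0 := by
    intro h0
    have := hw (Pi.single (Fin.last n) 1)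
    rw [h0, zero_dotProduct, Pi.single_eq_same] at this
    exact zero_ne_one this
  have hv : ∀ (F : k[X]), F.natDegree ≤ n → ∀ i, a i ≠ 0 →
      v i ⬝ᵥ ((g : Matrix (Fin (n + 1)) (Fin (n + 1)) k) *ᵥ cf n F) = c i * F.eval (p i) := by
    intro F hF i hi
    rw [dotProduct_mulVec, (hc i hi).2, smul_dotProduct, smul_eq_mul, cf_eval hF]
  -- the polynomial with the given roots
  have hmon : ∀ x : Fin n → k, (∏ l, (X - C (x l)) : k[X]).Monic := fun x =>
    monic_prod_of_monic _ _ fun l _ => monic_X_sub_C (x l)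
  have hnd : ∀ x : Fin n → k, (∏ l, (X - C (x l)) : k[X]).natDegree = n := by
    intro x
    rw [natDegree_prod_of_monic _ _ fun l _ => monic_X_sub_C (x l)]
    simp
  have hev : ∀ (x : Fin n → k) t, (∏ l, (X - C (x l)) : k[X]).eval t = ∏ l, (t - x l) := by
    intro x t
    rw [eval_prod]
    exact Finset.prod_congr rfl fun l _ => by rw [eval_sub, eval_X, eval_C]
  have hprod : ∀ (x : Fin n → k) (y : Fin n → k), (∀ l, y l ^ m = ∏ i, (p i - x l) ^ a i) →
      (γ * ∏ l, y l) ^ m =
        ∏ i, (v i ⬝ᵥ ((g : Matrix (Fin (n + 1)) (Fin (n + 1)) k) *ᵥ cf n (∏ l, (X - C (x l))))) ^ a i := by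
    intro x y hy
    rw [mul_pow, hγ, ← Finset.prod_pow, Finset.prod_congr rfl fun l _ => hy l, Finset.prod_comm,
      ← Finset.prod_mul_distrib]
    refine Finset.prod_congr rfl fun i _ => ?_
    by_cases hi : a i = 0
    · simp [hi]
    · rw [if_neg hi, hv _ (hnd x).le i hi, hev, mul_pow, Finset.prod_pow]
  refine ⟨g, w, p, γ, hw0, hγ0, hp, ?_⟩
  apply Set.Subset.antisymm
  · rintro ⟨z, y⟩ ⟨hz, hy⟩
    obtain ⟨f, rfl⟩ := hw' z
    obtain ⟨F, hF, rfl⟩ := exists_poly f
    change w ⬝ᵥ _ = 1 at hz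
    rw [hw] at hz
    have hcoeff : F.coeff n = 1 := hz
    have hFn : F.natDegree = n := le_antisymm hF
      (le_natDegree_of_ne_zero (by rw [hcoeff]; exact one_ne_zero))
    have hFm : F.Monic := by rw [Monic, leadingCoeff, hFn, hcoeff]
    obtain ⟨x, hx⟩ := exists_roots hFm hFn
    have hroot : ∀ l, ∃ b : k, b ^ m = ∏ i, (p i - x l) ^ a i := fun l =>
      IsAlgClosed.exists_pow_nat_eq _ hm
    choose b hb using hroot
    have h3 := hprod x b hb
    change y ^ m = ∏ i, (v i ⬝ᵥ _) ^ a i at hy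
    rw [← hx, ← hy] at h3
    have key : ∃ b' : Fin n → k, (∀ l, b' l ^ m = ∏ i, (p i - x l) ^ a i) ∧ γ * ∏ l, b' l = y := by
      by_cases hy0 : y = 0
      · refine ⟨b, hb, ?_⟩
        rw [hy0, zero_pow hm.ne'] at h3
        rw [hy0]
        exact (pow_eq_zero_iff hm.ne').1 h3
      · have hg0 : γ * ∏ l, b l ≠ 0 := by
          intro h
          rw [h, zero_pow hm.ne'] at h3
          exact hy0 ((pow_eq_zero_iff hm.ne').1 h3.symm)
        let l0 : Fin n := ⟨0, hn⟩
        set ζ : k := y / (γ * ∏ l, b l) with hζ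
        have hζm : ζ ^ m = 1 := by
          rw [hζ, div_pow, h3, div_self (pow_ne_zero _ hy0)]
        refine ⟨fun l => if l = l0 then ζ * b l else b l, fun l => ?_, ?_⟩
        · simp only
          split_ifs with h
          · rw [mul_pow, hζm, one_mul, hb]
          · exact hb l
        · have h5 : ∏ l, (if l = l0 then ζ * b l else b l) = ζ * ∏ l, b l := by
            rw [← Finset.mul_prod_erase Finset.univ _ (Finset.mem_univ l0),
              ← Finset.mul_prod_erase Finset.univ b (Finset.mem_univ l0), if_pos rfl, mul_assoc]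
            congr 2
            exact Finset.prod_congr rfl fun l hl => if_neg (Finset.ne_of_mem_erase hl)
          rw [h5, ← mul_assoc, mul_comm γ ζ, mul_assoc, hζ, div_mul_cancel₀ _ hg0]
    obtain ⟨b', hb', hy'⟩ := key
    refine ⟨fun l => (x l, b' l), fun l => hb' l, ?_⟩
    refine Prod.ext ?_ hy'
    change (g : Matrix (Fin (n + 1)) (Fin (n + 1)) k) *ᵥ cf n (∏ l, (X - C (x l))) = (g : Matrix (Fin (n + 1)) (Fin (n + 1)) k) *ᵥ cf n F
    rw [← hx]
  · rintro _ ⟨u, hu, rfl⟩
    refine ⟨?_, ?_⟩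
    · change w ⬝ᵥ ((g : Matrix (Fin (n + 1)) (Fin (n + 1)) k) *ᵥ cf n (∏ l, (X - C (u l).1))) = 1
      rw [hw]
      change (∏ l, (X - C (u l).1)).coeff n = 1
      have h1 := hmon fun l => (u l).1
      rw [Monic, leadingCoeff, hnd] at h1
      exact h1
    · exact hprod (fun l => (u l).1) (fun l => (u l).2) fun l => hu l

/-- a subfamily of a family in general position -/
lemma genPos_comp {v : Fin s → Fin (n + 1) → k} (hv : GenPos v) {r : ℕ} (e : Fin r ↪ Fin s) :
    GenPos fun j => v (e j) := by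
  intro z hz
  refine le_trans ?_ (hv z hz)
  rw [← Finset.card_map e]
  refine Finset.card_le_card fun i hi => ?_
  rw [Finset.mem_map] at hi
  obtain ⟨j, hj, rfl⟩ := hi
  rw [Finset.mem_filter] at hj ⊢
  exact ⟨Finset.mem_univ _, hj.2⟩

/-- `n + 3` hyperplanes in general position are osculating hyperplanes of a rational normal curve. -/
theorem osculating_of_genPos [Infinite k] {v : Fin s → Fin (n + 1) → k} (hv : GenPos v) (hs : n + 3 ≤ s)
    {S : Finset (Fin s)} (hS : S.card ≤ n + 3) : Osculating v (S : Set (Fin s)) := by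
  classical
  obtain ⟨T, hST, -, hT⟩ := Finset.exists_subsuperset_card_eq (Finset.subset_univ S) hS
    (by rw [Finset.card_univ, Fintype.card_fin]; exact hs)
  let e : Fin (n + 3) ↪ Fin s := (T.orderEmbOfFin hT).toEmbedding
  have heT : ∀ i ∈ T, ∃ j, e j = i := by
    intro i hi
    have : i ∈ Set.range (T.orderEmbOfFin hT) := by
      rw [Finset.range_orderEmbOfFin]
      exact hi
    exact this
  obtain ⟨p, c, hp, hc, hex⟩ := exists_points (genPos_comp hv e)
  have hz : ∀ j : Fin (n + 1), ∃ z, ∀ i, v (e i) ⬝ᵥ z = c i * p i ^ (j : ℕ) := by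
    intro j
    obtain ⟨z, hz⟩ := hex (X ^ (j : ℕ)) (by
      rw [degree_X_pow]
      exact_mod_cast j.2)
    exact ⟨z, fun i => by rw [hz i, eval_pow, eval_X]⟩
  choose z hz using hz
  let Z : Matrix (Fin (n + 1)) (Fin (n + 1)) k := Matrix.of fun i j => z j i
  have hvZ : ∀ i, v (e i) ᵥ* Z = c i • fun j : Fin (n + 1) => p i ^ (j : ℕ) := by
    intro i
    funext j
    exact hz j i
  have hinj : ∀ x : Fin (n + 1) → k, Z *ᵥ x = 0 → x = 0 := by
    intro x hx
    obtain ⟨F, hF, rfl⟩ := exists_poly x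
    have h1 : ∀ i, F.eval (p i) = 0 := by
      intro i
      have h2 : v (e i) ⬝ᵥ (Z *ᵥ cf n F) = 0 := by rw [hx, dotProduct_zero]
      rw [dotProduct_mulVec, hvZ, smul_dotProduct, smul_eq_mul, cf_eval hF] at h2
      exact (mul_eq_zero.1 h2).resolve_left (hc i)
    have h3 : F = 0 := by
      refine Polynomial.eq_zero_of_natDegree_lt_card_of_eval_eq_zero' F (Finset.univ.image p) ?_ ?_
      · intro t ht
        rw [Finset.mem_image] at ht
        obtain ⟨i, -, rfl⟩ := ht
        exact h1 i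
      · rw [Finset.card_image_of_injective _ hp, Finset.card_univ, Fintype.card_fin]
        omega
    rw [h3]
    funext j
    simp [cf]
  have hunit : IsUnit Z := by
    rw [← Matrix.mulVec_injective_iff_isUnit]
    intro x y hxy
    have := hinj (x - y) (by rw [mulVec_sub]; exact sub_eq_zero.2 hxy)
    exact sub_eq_zero.1 this
  obtain ⟨g, hg⟩ := hunit
  refine ⟨g, Function.extend e p 0, Function.extend e c 0, ?_, ?_⟩
  · intro i hi j hj hij
    obtain ⟨i', rfl⟩ := heT i (hST hi)
    obtain ⟨j', rfl⟩ := heT j (hST hj)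
    rw [e.injective.extend_apply, e.injective.extend_apply] at hij
    rw [hp hij]
  · intro i hi
    obtain ⟨i', rfl⟩ := heT i (hST hi)
    rw [e.injective.extend_apply, e.injective.extend_apply, hg]
    exact ⟨hc i', hvZ i'⟩

end Pool.Agent.Q63.SP
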