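import Mathlib
import Pool.Agent.Q63.SP.Osc
import Pool.Agent.Q63.KI.Main

/-!
# Motives of abelian coverings of projective spaces over hyperplanes
-/

set_option autoImplicit false

namespace Pool.Agent.Q63.SP

open CategoryTheory Multiplicative Pool.Agent.Q63.KU Pool.Agent.Q63.KI

/-- `X → P^n` is a smooth abelian covering over `ℂ` branched over the `s` hyperplanes `v i ⬝ᵥ z = 0`, with a
group which is a quotient of `(ℤ/m)^s`, where the `i`-th generator goes to the canonical generator of the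
inertia group of the `i`-th hyperplane; `Λ` is the group of its characters. `M` is the Chow motive `h(X)` with
coefficients in `ℂ` (`𝒞` is the category of these motives), `ρ` is the action of `(ℤ/m)^s`, `Q a` is the motive of the
quotient variety `X / ker a`, `push a` and `pull a` are the push-forward (divided by the degree) and the pull-back. -/
structure HyperplaneCoverMotive {𝒞 : Type} [Category.{0} 𝒞] [Preadditive 𝒞] [Linear ℂ 𝒞] {m s n : ℕ}
    [NeZero m] (v : Fin s → Fin (n + 1) → ℂ) (Λ : AddSubgroup (Fin s → ZMod m)) (ψ : AddChar (ZMod m) ℂ)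
    (P : 𝒞 → Prop) (M : 𝒞) (ρ : Multiplicative (Fin s → ZMod m) →* End M) (Q : (Fin s → ZMod m) → 𝒞)
    (push : ∀ a, M ⟶ Q a) (pull : ∀ a, Q a ⟶ M) : Prop where
  /-- only characters of the covering occur -/
  characters : ∀ a, a ∉ Λ → prj ψ ρ a = 0
  /-- pull-back after push-forward is the average over `ker a` -/
  average : ∀ a ∈ Λ, push a ≫ pull a = ((Fintype.card {h : Fin s → ZMod m // ∑ i, a i * h i = 0} : ℂ))⁻¹ •
    ∑ h : {h : Fin s → ZMod m // ∑ i, a i * h i = 0}, (ρ (ofAdd h.1) : M ⟶ M)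
  /-- `X / ker a` is (a component of) the cyclic covering of `P^n` with the exponents `a`. If its affine part is
  the image of the power `C ^ n` of a curve under a symmetric map, it is a quotient of the power of the complete
  curve by a finite group, so `Q a` is a direct summand of the motive of this power. -/
  known : ∀ a ∈ Λ, IsCurvePower m v (fun i => (a i).val) → P (Q a)

variable {𝒞 : Type} [Category.{0} 𝒞] [Preadditive 𝒞] [Linear ℂ 𝒞] {M : 𝒞} {m s : ℕ} [NeZero m]
  {ψ : AddChar (ZMod m) ℂ}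

theorem hyper_motive {n : ℕ} {v : Fin s → Fin (n + 1) → ℂ} {Λ : AddSubgroup (Fin s → ZMod m)}
    (hψ : ψ.IsPrimitive) {P : 𝒞 → Prop} (hP : SummandClosed P)
    {ρ : Multiplicative (Fin s → ZMod m) →* End M} {Q : (Fin s → ZMod m) → 𝒞}
    {push : ∀ a, M ⟶ Q a} {pull : ∀ a, Q a ⟶ M}
    (hM : HyperplaneCoverMotive v Λ ψ P M ρ Q push pull)
    (hgood : ∀ a ∈ Λ, IsCurvePower m v (fun i => (a i).val)) : P M := by
  classical
  let e := Fintype.equivFin {a : Fin s → ZMod m // a ∈ Λ}
  refine hP _ (fun n => Q (e.symm n).1) M (fun n => push (e.symm n).1)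
    (fun n => pull (e.symm n).1 ≫ prj ψ ρ (e.symm n).1)
    (fun n => hM.known _ (e.symm n).2 (hgood _ (e.symm n).2)) ?_
  have h1 : ∀ a ∈ Λ, push a ≫ pull a ≫ prj ψ ρ a = prj ψ ρ a := by
    intro a ha
    rw [← Category.assoc, hM.average a ha, Linear.smul_comp, Preadditive.sum_comp]
    have hc : ∀ h : {h : Fin s → ZMod m // ∑ i, a i * h i = 0},
        (ρ (ofAdd h.1) : M ⟶ M) ≫ prj ψ ρ a = prj ψ ρ a := fun h => ker_prj ρ h.2
    rw [Finset.sum_congr rfl fun h _ => hc h, Finset.sum_const, Finset.card_univ,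
      ← Nat.cast_smul_eq_nsmul ℂ, smul_smul, inv_mul_cancel₀, one_smul]
    have : Nonempty {h : Fin s → ZMod m // ∑ i, a i * h i = 0} := ⟨⟨0, by simp⟩⟩
    exact_mod_cast Fintype.card_ne_zero
  have h2 : ∑ n, push (e.symm n).1 ≫ pull (e.symm n).1 ≫ prj ψ ρ (e.symm n).1 =
      ∑ a : {a : Fin s → ZMod m // a ∈ Λ}, prj ψ ρ a.1 := by
    rw [Fintype.sum_equiv e.symm _ (fun a : {a : Fin s → ZMod m // a ∈ Λ} =>
      push a.1 ≫ pull a.1 ≫ prj ψ ρ a.1) fun _ => rfl]
    exact Finset.sum_congr rfl fun a _ => h1 a.1 a.2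
  rw [h2]
  have h3 : ∑ a : {a : Fin s → ZMod m // a ∈ Λ}, prj ψ ρ a.1 =
      ∑ a ∈ Finset.univ.filter (fun a => a ∈ Λ), prj ψ ρ a :=
    (Finset.sum_subtype (p := fun a => a ∈ Λ) _ (by simp) _).symm
  rw [h3, Finset.sum_filter, ← sum_prj hψ ρ]
  refine Finset.sum_congr rfl fun a _ => ?_
  by_cases ha : a ∈ Λ
  · rw [if_pos ha]
  · rw [if_neg ha, hM.characters a ha]

/-- The characters of a covering over hyperplanes in general position, which are ramified over at most `n + 3` of them,
and the characters of coverings over osculating hyperplanes. -/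
theorem isCurvePower {n : ℕ} (hn : 0 < n) {v : Fin s → Fin (n + 1) → ℂ} {Λ : AddSubgroup (Fin s → ZMod m)}
    (h : (GenPos v ∧ n + 3 ≤ s ∧ ∀ a ∈ Λ, lines a ≤ n + 3) ∨ Osculating v Set.univ) :
    ∀ a ∈ Λ, IsCurvePower m v (fun i => (a i).val) := by
  intro a ha
  have hm : 0 < m := Nat.pos_of_ne_zero (NeZero.ne m)
  refine curvePower_of_osculating hn hm ?_
  rcases h with ⟨hv, hs, hl⟩ | h
  · have h1 : {i | (a i).val ≠ 0} = ((Finset.univ.filter fun i => a i ≠ 0 : Finset (Fin s)) : Set (Fin s)) := by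
      ext i
      simp [ZMod.val_eq_zero]
    rw [h1]
    exact osculating_of_genPos hv hs (hl a ha)
  · obtain ⟨g, p, c, hp, hc⟩ := h
    exact ⟨g, p, c, hp.mono (Set.subset_univ _), fun i _ => hc i (Set.mem_univ i)⟩

end Pool.Agent.Q63.SP
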