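import Mathlib
import Pool.Agent.Q63.SP.Cover
import Pool.Agent.Q63.KI.Defs
import Pool.Agent.Q63.KU.Dec

/-!
# Galois invariant classes on coverings of the plane
-/

set_option autoImplicit false

namespace Pool.Agent.Q63.SP

open Multiplicative Pool.Agent.Q63.KU Pool.Agent.Q63.KI

/-- `X` is a smooth complete intersection of `r - 3` hypersurfaces `∑ c_i x_i ^ m = 0` in `P^(r-1)` over a
finitely generated field, with Galois group `Γ`. `V` is `H^2(X, F(1))`, `F` the algebraic closure of
`ℚ_ℓ`, with the actions `ρ` of the group `(μ_m)^r = (ℤ/m)^r` on `X`, and `γ` of `Γ`; `A` is the span of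
the classes of divisors. For a character `a` of `(ℤ/m)^r/(ℤ/m)` let `N_a` be its kernel. The surface
`X/N_a` is the cyclic covering of the plane with the exponents `a`; its second cohomology, up to
the classes of exceptional curves, consists of the invariants of `N_a` in `V`. -/
structure DiagonalTate {F V Γ : Type} [Field F] [AddCommGroup V] [Module F V] [Group Γ] (m r : ℕ)
    (ρ : Representation F (Multiplicative (Fin r → ZMod m)) V) (γ : Representation F Γ V)
    (A : Submodule F V) : Prop where
  /-- the diagonal acts trivially -/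
  diag : ∀ (c : ZMod m) (v : V), ρ (ofAdd fun _ => c) v = v
  /-- the group acts by automorphisms over the base field -/
  comm : ∀ g s v, ρ g (γ s v) = γ s (ρ g v)
  /-- The Tate conjecture for the surfaces `X/N_a` which are branched over at most five lines (they are dominated by the
  product of a curve with itself, see `cover_of_curves`) and for the double planes over six lines (K3 surfaces). -/
  known : ∀ a : Fin r → ZMod m, ∑ i, a i = 0 → (lines a ≤ 5 ∨ (m = 2 ∧ lines a ≤ 6)) →
    ∀ v, (∀ s, γ s v = v) →
    (∀ h : Fin r → ZMod m, ∑ i, a i * h i = 0 → ρ (ofAdd h) v = v) → v ∈ A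

lemma lines_le {m r : ℕ} (a : Fin r → ZMod m) : lines a ≤ r := by
  unfold lines
  refine le_trans (Finset.card_filter_le _ _) ?_
  rw [Finset.card_univ, Fintype.card_fin]

lemma lines_seven (a : Fin 7 → ZMod 2) (ha : ∑ i, a i = 0) : lines a ≤ 6 := by
  revert a
  decide +kernel

theorem diagonal_tate {F V Γ : Type} [Field F] [IsAlgClosed F] [CharZero F] [AddCommGroup V] [Module F V]
    [Group Γ] {m r : ℕ} (hm : 0 < m) (h : r = 5 ∨ (m = 2 ∧ r = 7))
    {ρ : Representation F (Multiplicative (Fin r → ZMod m)) V} {γ : Representation F Γ V}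
    {A : Submodule F V} (hD : DiagonalTate m r ρ γ A) : ∀ v, (∀ s, γ s v = v) → v ∈ A := by
  have : NeZero m := ⟨hm.ne'⟩
  let U : Submodule F V :=
    { carrier := {v | ∀ s, γ s v = v}
      add_mem' := fun {x y} hx hy s => by rw [map_add, hx, hy]
      zero_mem' := fun s => map_zero _
      smul_mem' := fun c x hx s => by rw [map_smul, hx] }
  have hU : U ≤ A := by
    refine le_of_kernels (ρ := ρ) hD.diag ?_ ?_
    · intro g u hu s
      rw [← hD.comm, hu]
    · intro a ha v hv hN
      refine hD.known a ha ?_ v hv hN
      rcases h with rfl | ⟨rfl, rfl⟩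
      · exact Or.inl (lines_le a)
      · exact Or.inr ⟨rfl, lines_seven a ha⟩
  exact fun v hv => hU hv

end Pool.Agent.Q63.SP
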