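import Mathlib
import Pool.Agent.Q63.SP.Tate

/-!
# The Mumford-Tate conjecture for coverings of the plane
-/

set_option autoImplicit false

namespace Pool.Agent.Q63.SP

open Multiplicative Pool.Agent.Q63.KU Pool.Agent.Q63.KI

/-- The pairs (degree, number of variables) for the complete intersections of dimension two of four
diagonal quadrics in `P^6`, and of two diagonal hypersurfaces of degree three, four or six in `P^4`. -/
def MTTypes (m r : ℕ) : Prop := (m = 2 ∧ r = 7) ∨ ((m = 3 ∨ m = 4 ∨ m = 6) ∧ r = 5)

/-- `X` is a smooth complete intersection of `r - 3` hypersurfaces `∑ c_i x_i ^ m = 0` in `P^(r-1)` over a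
finitely generated field of characteristic zero. `V = H^2(X, F(1))`, `F` the algebraic closure of `ℚ_ℓ`,
with the action `ρ` of the group `(ℤ/m)^r` on `X`. `M` is the group of the points over `F` of the
Mumford-Tate group of `H^2(X, ℚ(1))`, and `L` the group of the points over `F` of the (connected)
algebraic monodromy group of the Galois representation on `H^2(X, ℚ_ℓ(1))`. For a character `a` of
`(ℤ/m)^r/(ℤ/m)` with kernel `N_a` the cohomology of the surface `X/N_a` is, up to algebraic
classes, the space of the `N_a`-invariants in `V`. -/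
structure DiagonalMT {F V : Type} [Field F] [AddCommGroup V] [Module F V] (m r : ℕ)
    (ρ : Representation F (Multiplicative (Fin r → ZMod m)) V) (M L : Subgroup (V ≃ₗ[F] V)) : Prop where
  /-- the diagonal acts trivially -/
  diag : ∀ (c : ZMod m) (v : V), ρ (ofAdd fun _ => c) v = v
  /-- The Mumford-Tate conjecture for the product of the surfaces `X/N_a` which are branched over at most five lines
  if `m = 3, 4, 6` (they are dominated by `C × C` and their transcendental cohomology is contained in the second
  tensor power of the first cohomology of an abelian variety of dimension at most three) and of the double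
  planes over six lines (K3 surfaces): the restrictions of `M` and `L` to the direct sum of the spaces of the
  `N_a`-invariants are the same group. -/
  known : ∀ (P Q : Subgroup (V ≃ₗ[F] V)), (P = M ∧ Q = L) ∨ (P = L ∧ Q = M) → ∀ g ∈ P, ∃ g' ∈ Q,
    ∀ a : Fin r → ZMod m, ∑ i, a i = 0 →
      ((m = 3 ∨ m = 4 ∨ m = 6) ∧ lines a ≤ 5) ∨ (m = 2 ∧ lines a ≤ 6) → ∀ v,
      (∀ h : Fin r → ZMod m, ∑ i, a i * h i = 0 → ρ (ofAdd h) v = v) → g v = g' v

theorem diagonal_mt {F V : Type} [Field F] [IsAlgClosed F] [CharZero F] [AddCommGroup V] [Module F V]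
    {m r : ℕ} (h : MTTypes m r) {ρ : Representation F (Multiplicative (Fin r → ZMod m)) V}
    {M L : Subgroup (V ≃ₗ[F] V)} (hD : DiagonalMT m r ρ M L) : M = L := by
  have hm : NeZero m := ⟨by
    rcases h with ⟨rfl, -⟩ | ⟨rfl | rfl | rfl, -⟩ <;> norm_num⟩
  have key : ∀ (P Q : Subgroup (V ≃ₗ[F] V)), (P = M ∧ Q = L) ∨ (P = L ∧ Q = M) → P ≤ Q := by
    intro P Q hPQ g hg
    obtain ⟨g', hg', hgg⟩ := hD.known P Q hPQ g hg
    let A : Submodule F V := LinearMap.eqLocus (g : V →ₗ[F] V) (g' : V →ₗ[F] V)
    have hA : (⊤ : Submodule F V) ≤ A := by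
      refine le_of_kernels (ρ := ρ) hD.diag (fun _ _ _ => trivial) ?_
      intro a ha v _ hN
      refine hgg a ha ?_ v hN
      rcases h with ⟨rfl, rfl⟩ | ⟨hm3, rfl⟩
      · exact Or.inr ⟨rfl, lines_seven a ha⟩
      · exact Or.inl ⟨hm3, lines_le a⟩
    have : g = g' := by
      ext v
      exact hA (x := v) trivial
    rw [this]
    exact hg'
  exact le_antisymm (key M L (Or.inl ⟨rfl, rfl⟩)) (key L M (Or.inr ⟨rfl, rfl⟩))

end Pool.Agent.Q63.SP
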